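import Pool.Agent.Y804.PK.Fin3

/-!
# MP_28d749_ag: negative answer to Q1 (Pink's conjecture for abelian schemes)

`S` is the affine line minus `{0, 1}`, `E : y² = x³ - 2`, and `A = E × E_t × E_{t-1}` with the
quadratic twists `E_d : y² = x³ - 2 d³`. The curve `X` of the points with coordinates `(3, 5)`,
`(3 t, ± 5 t^{3/2})`, `(3 (t - 1), ± 5 (t - 1)^{3/2})` is closed and irreducible of dimension `1`,
lies in no strict closed subgroup scheme of `A` over `S`, but every point of `X` lies in a closed
one-dimensional subgroup of its fibre.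
-/

set_option autoImplicit false

namespace Pool.Agent.Results.MP_28d749_ag.PinkQuadraticTwists

open Pool.Agent.Y804.PK
open scoped Classical

theorem result :
    IsClosed (curveX : Set (A (AlgebraicClosure ℚ))) ∧
    IsIrreducible (curveX : Set (A (AlgebraicClosure ℚ))) ∧
    topologicalKrullDim (curveX : Set (A (AlgebraicClosure ℚ))) = 1 ∧
    (∀ H : Set (A (AlgebraicClosure ℚ)), IsGroupSubscheme H → curveX ⊆ H → H = Set.univ) ∧
    (curveX : Set (A (AlgebraicClosure ℚ))) ⊆ Atyp 1 := main

end Pool.Agent.Results.MP_28d749_ag.PinkQuadraticTwists
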