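import Pool.Agent.Y226.ZE.Main

/-!
# MP_28d749_ag: Pink's conjecture for curves in products of elliptic families

For an algebraic number `X ≠ 0, 1728` let `E X` be the elliptic curve `y² = x³ + c x + c` with
`c = -27 X / (4 (X - 1728))`; its `j`-invariant is `X` (`E_j`). Let `S` be a subvariety of
`(𝔸^1 ∖ {0, 1728})^g` and `𝒜` the abelian scheme over `S` whose fibre over `(X_1, …, X_g)` is
`E X_1 × ⋯ × E X_g`. A point `P = (P_1, …, P_g)` of `𝒜` all of whose components are different from
the origin is determined, up to signs, by the point `(X_j, U_j)_j` of `(𝔸^2)^g`, where `U_j` is the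
abscissa of `P_j`.

If `P` lies in an algebraic subgroup `H` of codimension at least two of the fibre, then
`r + 2 ≤ g + t`, where `r` is the number of isogeny classes among the curves `E X_1, …, E X_g` and
`t` is the number of all `j` for which `P_j` is a torsion point: indeed `H` is the kernel of a
surjective homomorphism to an abelian variety of dimension at least two which is, up to isogeny, a
product over the isogeny classes; if the dimension of the factor for a class with `m` members is `c`,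
then `c ≤ m`, and for `c = m` all `m` components of `P` in this class are torsion points, so that
always `c ≤ m - 1 + t'` with the number `t'` of torsion points in this class. The points which
satisfy `r + 2 ≤ g + t` are called `Atypical` here.

Let `V ⊆ (𝔸^2)^g` be an irreducible curve over the algebraic numbers (of any genus and any degree),
given by its prime ideal `I`, with nonconstant coordinates, such that any two different coordinates
`z, z'` satisfy on `V` an equation `∑_{u ≤ a, v ≤ b} g_{uv} z ^ u z' ^ v = 0` with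
`g_{00}, g_{a0}, g_{0b}, g_{ab} ≠ 0`, so that the zeros and poles of `z` on the smooth projective
model of `V` are different from those of `z'`.

Theorem: for each `W` there is a number `D` such that for all rational `lam_j, mu_j, lam'_j, mu'_j`
for which there are a prime number `p > D` and `e > 0` with `v_p (lam_j) = - w_j e`,
`1 ≤ w_j ≤ W`, `v_p (mu_j) > v_p (lam_j)`, `v_p (lam'_j) ≤ - (e + 2)` and
`v_p (mu'_j) > v_p (lam'_j)` for all `j`, the image `V'` of `V` under
`(X, U) ↦ (lam X + mu, lam' U + mu')` contains only finitely many atypical points over the algebraic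
numbers. Hence each curve `𝒳 ⊆ 𝒜` which lies over such a curve `V'` has only finitely many points in
the union `𝒜^[>1]` of all algebraic subgroups of codimension at least two of the fibres of `𝒜`,
including the fibres for which some of the curves `E X_j` become isogenous. For example, this
holds for `(X, U) ↦ (X / m + c, U / m ^ 3 + c')` for all integers `m` with a prime factor greater
than `D` and all `c, c' ∈ ℤ^g`.
-/

namespace Pool.Agent.Results.MP_28d749_ag.ProductsOfEllipticFamilies

open H294ZP MvPolynomial UpperHalfPlane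

/-- The elliptic curve `y² = x³ + c x + c` with `c = -27 X / (4 (X - 1728))`. -/
def E {F : Type} [Field F] (X : F) : WeierstrassCurve F :=
  ⟨0, 0, 0, -(27 * X) / (4 * (X - 1728)), -(27 * X) / (4 * (X - 1728))⟩

/-- `E X` is an elliptic curve with `j`-invariant `c₄³ / Δ = X`. -/
theorem E_j {F : Type} [Field F] [CharZero F] {X : F} (h0 : X ≠ 0) (h1 : X ≠ 1728) :
    (E X).Δ ≠ 0 ∧ (E X).c₄ ^ 3 = X * (E X).Δ := by
  have h2 : X - 1728 ≠ 0 := sub_ne_zero.2 h1
  have e : (E X).Δ = 2 ^ 12 * 3 ^ 12 * X ^ 2 / (4 * (X - 1728)) ^ 3 := by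
    simp only [E, WeierstrassCurve.Δ, WeierstrassCurve.b₂, WeierstrassCurve.b₄,
      WeierstrassCurve.b₆, WeierstrassCurve.b₈]
    field_simp
    ring
  have e' : (E X).c₄ ^ 3 = X * (2 ^ 12 * 3 ^ 12 * X ^ 2 / (4 * (X - 1728)) ^ 3) := by
    simp only [E, WeierstrassCurve.c₄, WeierstrassCurve.b₂, WeierstrassCurve.b₄]
    field_simp
    ring
  refine ⟨?_, by rw [e', e]⟩
  rw [e]
  exact div_ne_zero (mul_ne_zero (by norm_num) (pow_ne_zero 2 h0))
    (pow_ne_zero 3 (mul_ne_zero (by norm_num) h2))

open Classical in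
/-- `U` is the abscissa of a torsion point of `E X`. -/
def IsTorsion {F : Type} [Field F] (X U : F) : Prop :=
  ∃ (y : F) (h : (E X).toAffine.Nonsingular U y),
    IsOfFinAddOrder (WeierstrassCurve.Affine.Point.some U y h)

/-- The elliptic curves with the `j`-invariants `X` and `Y` are isogenous: `X = j (τ)` and
`Y = j (τ')` with `τ' = (a τ + b) / (c τ + d)` for integers `a, b, c, d` with `a d - b c > 0`. -/
def Isogenous (X Y : ℂ) : Prop :=
  ∃ (τ τ' : ℍ) (a b c d : ℤ), 0 < a * d - b * c ∧ (τ' : ℂ) * (c * τ + d) = a * τ + b ∧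
    X = jj τ ∧ Y = jj τ'

/-- The algebraic points of the zero set of the ideal `I`. -/
def curve {n : ℕ} (I : Ideal (MvPolynomial (Fin n) (algebraicClosure ℚ ℂ))) : Set (Fin n → algebraicClosure ℚ ℂ) :=
  {y | ∀ f ∈ I, eval y f = 0}

/-- The points `(X_j, U_j)_j` of the image of `V`. -/
def image {g : ℕ} (I : Ideal (MvPolynomial (Fin (g + g)) (algebraicClosure ℚ ℂ))) (lam mu lam' mu' : Fin g → ℚ) :
    Set (Fin g → algebraicClosure ℚ ℂ × algebraicClosure ℚ ℂ) :=
  {x | ∃ y ∈ curve I, ∀ j, (x j).1 = lam j * y (Fin.castAdd g j) + mu j ∧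
    (x j).2 = lam' j * y (Fin.natAdd g j) + mu' j}

/-- The number `r` of isogeny classes and the number `t` of torsion points satisfy
`r + 2 ≤ g + t`. -/
def Atypical {g : ℕ} (x : Fin g → algebraicClosure ℚ ℂ × algebraicClosure ℚ ℂ) : Prop :=
  ∃ (r : ℕ) (cls : Fin g → Fin r) (T : Finset (Fin g)),
    (∀ j l, cls j = cls l → Isogenous (x j).1 (x l).1) ∧
    (∀ j ∈ T, IsTorsion (x j).1 (x j).2) ∧ r + 2 ≤ g + T.card

theorem IsTorsion.mem_TX {F : Type} [Field F] [iF : DecidableEq F] {X U : F}
    (h : IsTorsion X U) : U ∈ Pool.Agent.Y237.SA.TX (Pool.Agent.Y226.ZE.co X)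
      (Pool.Agent.Y226.ZE.co X) := by
  have e1 : iF = fun a b => Classical.propDecidable (a = b) := Subsingleton.elim _ _
  subst e1
  classical
  obtain ⟨z, hz, hz'⟩ := h
  obtain ⟨n, hn, hn0⟩ := isOfFinAddOrder_iff_nsmul_eq_zero.1 hz'
  exact ⟨z, hz, n, hn, hn0⟩

theorem result {g : ℕ} (I : Ideal (MvPolynomial (Fin (g + g)) (algebraicClosure ℚ ℂ))) (hI : I.IsPrime)
    (hconst : ∀ (i : Fin (g + g)) (c : algebraicClosure ℚ ℂ), X i - C c ∉ I)
    (hgen : ∀ i j : Fin (g + g), i ≠ j → ∃ (a b : ℕ) (g : ℕ → ℕ → algebraicClosure ℚ ℂ),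
      g 0 0 ≠ 0 ∧ g a 0 ≠ 0 ∧ g 0 b ≠ 0 ∧ g a b ≠ 0 ∧
      ∑ u ∈ Finset.range (a + 1), ∑ v ∈ Finset.range (b + 1),
        C (g u v) * X i ^ u * X j ^ v ∈ I) (W : ℕ) :
    ∃ D : ℕ, ∀ lam mu lam' mu' : Fin g → ℚ,
      (∃ (p e : ℕ) (w : Fin g → ℕ), p.Prime ∧ D < p ∧ 0 < e ∧ ∀ j, 0 < w j ∧ w j ≤ W ∧
        padicValRat p (lam j) = -((w j : ℤ) * e) ∧ padicValRat p (lam j) < padicValRat p (mu j) ∧
        padicValRat p (lam' j) ≤ -((e : ℤ) + 2) ∧
        padicValRat p (lam' j) < padicValRat p (mu' j)) →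
      {x | x ∈ image I lam mu lam' mu' ∧ Atypical x}.Finite := by
  classical
  obtain ⟨D, hD⟩ := Pool.Agent.Y226.ZE.main_fib I hI hconst (fun i j hij => by
    obtain ⟨a, b, g, h1, h2, h3, h4, h5⟩ := hgen i j hij
    exact ⟨a, b, Pool.Agent.Y226.ZG.mkG a b g, Pool.Agent.Y226.ZG.mkG_cor h1 h2 h3 h4,
      by rw [Pool.Agent.Y226.ZG.E2_mkG]; exact h5⟩) W
  refine ⟨D, fun lam mu lam' mu' h => (hD lam mu lam' mu' h).subset ?_⟩
  rintro x ⟨⟨y, hy, hx⟩, r, cls, T, h1, h2, h3⟩
  exact ⟨⟨y, hy, funext fun j => Prod.ext (hx j).1 (hx j).2⟩, r, cls, T, h3, h1,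
    fun j hj => (h2 j hj).mem_TX⟩

end Pool.Agent.Results.MP_28d749_ag.ProductsOfEllipticFamilies
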