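import Pool.Agent.Y645.PK.Main

/-!
# MP_28d749_ag: Pink's conjecture for a positive proportion of all multisections of the powers of an
arbitrary elliptic scheme

Let `B ⊆ P^N` be a projective variety of dimension at most `m`, defined by forms `G k` with
algebraic coefficients (`m + 1` linear forms have no common zero on `B`). Let `A₄` and `A₆` be forms
of degrees `4 e` and `6 e` with algebraic coefficients (any `e ≥ 0`). They give the elliptic scheme
`E → B°` with the fibres `E_y : y² = x³ + A₄(y) x + A₆(y)`, where `B°` is the open subset of `B` with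
`4 A₄³ + 27 A₆² ≠ 0`. (Every elliptic scheme over a quasi-projective variety over a number field is
of this form over an open subset of the variety.) Let `𝒜 = E ×_B … ×_B E` be its `q`-th fibre power,
an abelian scheme of relative dimension `q`.

Multisections: for `l = 1, …, q` let `F_{l,0}, …, F_{l,R}` be forms of degrees
`d_l, d_l + 2 e, …, d_l + 2 e R` with integral coefficients. The points `(y, P)` of `E` with
`∑_h F_{l,h}(y) x(P)^(R - h) = 0` (which means `F_{l,0}(y) = 0` at the origin `P = 0`) form a
multisection of `E`, of degree `2 R` over `B` in general. The fibre product of these `q`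
multisections is the subvariety `X_F ⊆ 𝒜` (`OnX`).

Theorem: if `q ≤ R` and `m ≤ R`, then for a positive proportion of all vectors `F` of coefficients (in
every residue class modulo any `Q₀` and in every box `H u + [-ε H, ε H]`)

* `X_F → B` has finite fibres, and over `B°` the fibres are not empty (`FiniteFibres`,
  `NonemptyFibres`); so if `B°` has dimension `m`, then `X_F` has dimension `d = m`;
* `X_F` does not meet `𝒜^[>m]`, the union of all algebraic subgroups of codimension `> m` of all the
  fibres (`AvoidsSubgroups`), as in Pink's conjecture;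
* for every `ρ` the intersection `X_F ∩ 𝒜^[≥ρ]` has dimension at most `m - ρ`, or is empty
  (`NoAtypical`). More precisely, if the point `(y, P)` of `X_F` over the complex numbers is in an
  algebraic subgroup of codimension at least `ρ` of its fibre, then at most `m - ρ` of the ratios
  `y_j / y_{j0}` are algebraically independent over the rational numbers. (The case `ρ = 1` says that
  no component of dimension `m` of `X_F` is in a strict group subscheme.)

The algebraic subgroups of the fibres `E_y^q` are given up to torsion by relations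
`∑ c_l (P_l) = 0` with endomorphisms `c_l` of `E_y` as coefficients, also for the fibres with complex
multiplication (`InSubgroup`).
-/

namespace Pool.Agent.Results.MP_28d749_ag.RandomMultisections

open MvPolynomial

/-- The curve `y² = x³ + a x + b` over the complex numbers. -/
abbrev curve (a b : ℂ) : WeierstrassCurve.Affine ℂ := ⟨0, 0, 0, a, b⟩

/-- The `x`-coordinate of a point of the curve (`0` for the origin). -/
def xCoord {a b : ℂ} : (curve a b).Point → ℂ
  | .zero => 0
  | .some x _ _ => x

/-- The map `φ` of the points of the curve `y² = x³ + a x + b` to itself is given on the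
`x`-coordinates by a rational function `u / w` with `u(x) / w(x) ~ x / c²` for `x → ∞`. -/
def ActsByRational {a b : ℂ} (c : ℂ) (φ : (curve a b).Point → (curve a b).Point) : Prop :=
  ∃ u w : Polynomial ℂ, w ≠ 0 ∧ u.natDegree = w.natDegree + 1 ∧
    w.leadingCoeff = c ^ 2 * u.leadingCoeff ∧
    ∀ P : (curve a b).Point, P ≠ 0 → w.eval (xCoord P) ≠ 0 →
      φ P ≠ 0 ∧ xCoord (φ P) * w.eval (xCoord P) = u.eval (xCoord P)

/-- A ring of endomorphisms of the curve `y² = x³ + a x + b`: a ring `O` of complex numbers which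
acts on the group of points. For an endomorphism which is multiplication by `λ` on the tangent space
at the origin the number `λ` is an integer or an imaginary quadratic integer, in particular it
satisfies an equation `λ² - T λ + N = 0` with integers `T, N`, and if it is not an integer, the
`x`-coordinate of the image of a point is a rational function `u / w` of the `x`-coordinate of the
point, with `u(x) / w(x) ~ x / λ²` for `x → ∞`. (The integers in `O` act by multiplication, as `act`
is a homomorphism of rings.) -/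
structure EndRing (a b : ℂ) where
  /-- the ring -/
  O : Subring ℂ
  /-- its action on the points -/
  act : O →+* AddMonoid.End (curve a b).Point
  quad : ∀ c : O, ∃ T N : ℤ, (c : ℂ) ^ 2 - T * c + N = 0
  rat : ∀ c : O, (∀ n : ℤ, (c : ℂ) ≠ n) → ActsByRational c (act c)

/-- The linear combination `∑ c_l (P_l)` of points with endomorphisms `c_l` as coefficients. -/
noncomputable def EndRing.comb {a b : ℂ} (E : EndRing a b) {q : ℕ} (c : Fin q → E.O)
    (P : Fin q → (curve a b).Point) : (curve a b).Point :=
  ∑ l, E.act (c l) (P l)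

/-- The coefficients `c_1, …, c_q` are a relation between the points `P_1, …, P_q` up to torsion:
the point `∑ c_l (P_l)` is a torsion point. -/
def EndRing.Relation {a b : ℂ} (E : EndRing a b) {q : ℕ} (c : Fin q → E.O)
    (P : Fin q → (curve a b).Point) : Prop :=
  ∃ t : ℕ, 0 < t ∧ t • E.comb c P = 0

/-- The point `(P_1, …, P_q)` of the `q`-th power of the curve is in an algebraic subgroup of
codimension at least `ρ`: the module of the relations between the `P_l` over some ring of
endomorphisms of the curve has rank at least `ρ`, it has `ρ` linearly independent elements. -/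
def InSubgroup {a b : ℂ} {q : ℕ} (P : Fin q → (curve a b).Point) (ρ : ℕ) : Prop :=
  ∃ (E : EndRing a b) (c : Fin ρ → Fin q → E.O),
    LinearIndependent ℂ (fun i l => (c i l : ℂ)) ∧ ∀ i, E.Relation (c i) P

/-- The vector `y` is a vector of homogeneous coordinates of a point of the projective variety with
the equations `G k = 0`. -/
def InBase {κ : Type} {N : ℕ} (G : κ → MvPolynomial (Fin (N + 1)) ℂ) (y : Fin (N + 1) → ℂ) : Prop :=
  y ≠ 0 ∧ ∀ k, eval y (G k) = 0

/-- The dimension of the projective variety is at most `m`: some `m + 1` linear forms have no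
common zero on it. -/
def DimLE {κ : Type} {N : ℕ} (G : κ → MvPolynomial (Fin (N + 1)) ℂ) (m : ℕ) : Prop :=
  ∃ t : Fin (m + 1) → Fin (N + 1) → ℂ, ∀ y, InBase G y → ∃ b, ∑ j, t b j * y j ≠ 0

/-- The monomials of degree `d` in the coordinates `y_0, …, y_N` are indexed by the multisets of size
`d`. The coefficient vectors of the forms `F_{l,h}` of degree `d_l + 2 e h`, for `l < q` and
`h ≤ R`, are the functions on this set with integral values. -/
abbrev Idx (N q R e : ℕ) (d : Fin q → ℕ) : Type :=
  (l : Fin q) × (h : Fin (R + 1)) × Sym (Fin (N + 1)) (d l + 2 * e * (h : ℕ))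

/-- The value of the form `F_{l,h}` at `y`. -/
noncomputable def form {N q R e : ℕ} {d : Fin q → ℕ} (F : Idx N q R e d → ℤ) (l : Fin q)
    (h : Fin (R + 1)) (y : Fin (N + 1) → ℂ) : ℂ :=
  ∑ u : Sym (Fin (N + 1)) (d l + 2 * e * (h : ℕ)), (F ⟨l, h, u⟩ : ℂ) *
    ((u : Multiset (Fin (N + 1))).map y).prod

/-- The point `P` of the fibre at `y` is on the multisection with number `l`. -/
def OnMultisection {N q R e : ℕ} {d : Fin q → ℕ} (F : Idx N q R e d → ℤ) (l : Fin q)
    (y : Fin (N + 1) → ℂ) {a b : ℂ} (P : (curve a b).Point) : Prop :=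
  (P = 0 ∧ form F l 0 y = 0) ∨
    (P ≠ 0 ∧ ∑ h : Fin (R + 1), form F l h y * xCoord P ^ (R - (h : ℕ)) = 0)

/-- The point `(y; P_1, …, P_q)` of the `q`-th fibre power is a point of `X_F`. -/
def OnX {N q R e : ℕ} {d : Fin q → ℕ} (F : Idx N q R e d → ℤ) (y : Fin (N + 1) → ℂ) {a b : ℂ}
    (P : Fin q → (curve a b).Point) : Prop :=
  ∀ l, OnMultisection F l y (P l)

section properties

variable {κ : Type} {N q R e : ℕ} {d : Fin q → ℕ} (G : κ → MvPolynomial (Fin (N + 1)) ℂ)
  (A₄ A₆ : MvPolynomial (Fin (N + 1)) ℂ) (F : Idx N q R e d → ℤ)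

/-- The fibres of `X_F → B` are finite. -/
def FiniteFibres : Prop :=
  ∀ y, InBase G y → {P : Fin q → (curve (eval y A₄) (eval y A₆)).Point | OnX F y P}.Finite

/-- The fibres of `X_F → B` at the points with smooth fibre `E_y` are not empty. -/
def NonemptyFibres : Prop :=
  ∀ y, InBase G y → 4 * eval y A₄ ^ 3 + 27 * eval y A₆ ^ 2 ≠ 0 →
    ∃ P : Fin q → (curve (eval y A₄) (eval y A₆)).Point, OnX F y P

/-- The variety `X_F` does not meet the algebraic subgroups of codimension `> m` of the fibres. -/
def AvoidsSubgroups (m : ℕ) : Prop :=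
  ∀ y, InBase G y → ∀ P : Fin q → (curve (eval y A₄) (eval y A₆)).Point, OnX F y P →
    ¬ InSubgroup P (m + 1)

/-- If the point `(y, P)` of `X_F` is in an algebraic subgroup of codimension at least `ρ` of its
fibre, then at most `m - ρ` of the ratios of the coordinates of `y` are algebraically independent. -/
def NoAtypical (m : ℕ) : Prop :=
  ∀ y, InBase G y → ∀ P : Fin q → (curve (eval y A₄) (eval y A₆)).Point, OnX F y P →
    ∀ ρ : ℕ, InSubgroup P ρ → ∀ (j0 : Fin (N + 1)) (T : Finset (Fin (N + 1))),
      AlgebraicIndependent ℚ (fun j : T => y j / y j0) → T.card + ρ ≤ m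

end properties

theorem xCoord_eq {a b : ℂ} (P : (curve a b).Point) :
    xCoord P = Pool.Agent.W466.EP.xx (A := a) (B := b) P := by
  rcases P with _ | ⟨x, y, h⟩
  · rfl
  · rfl

/-- the ring of endomorphisms as in the helper files -/
def toE {a b : ℂ} (E : EndRing a b) : Pool.Agent.TH971.RF.EndRing a b where
  O := E.O
  act := E.act
  quad := E.quad
  rat := by
    intro c hc
    obtain ⟨u, w, h1, h2, h3, h4⟩ := E.rat c hc
    refine ⟨u, w, h1, h2, h3, fun P hP hw => ?_⟩
    have e1 : xCoord (a := a) (b := b) P = Pool.Agent.W466.EP.xx (A := a) (B := b) P := xCoord_eq P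
    have hw' : w.eval (xCoord (a := a) (b := b) P) ≠ 0 := by rw [e1]; exact hw
    have h5 := h4 P hP hw'
    have e2 : xCoord (a := a) (b := b) (E.act c P) =
      Pool.Agent.W466.EP.xx (A := a) (B := b) (E.act c P) := xCoord_eq _
    rw [e1, e2] at h5
    exact h5

/-- the module of the relations -/
def relMod {a b : ℂ} (E : EndRing a b) {q : ℕ} (P : Fin q → (curve a b).Point) :
    Submodule E.O (Fin q → E.O) where
  carrier := {c | E.Relation c P}
  zero_mem' := ⟨1, one_pos, by simp [EndRing.comb]⟩
  add_mem' := by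
    rintro c c' ⟨t, ht, h⟩ ⟨t', ht', h'⟩
    refine ⟨t * t', Nat.mul_pos ht ht', ?_⟩
    have e1 : E.comb (c + c') P = E.comb c P + E.comb c' P := by
      unfold EndRing.comb
      rw [← Finset.sum_add_distrib]
      refine Finset.sum_congr rfl fun l _ => ?_
      rw [Pi.add_apply, map_add]
      rfl
    rw [e1, nsmul_add, mul_nsmul, h, mul_comm t t', mul_nsmul, h', nsmul_zero, nsmul_zero, add_zero]
  smul_mem' := by
    rintro r c ⟨t, ht, h⟩
    refine ⟨t, ht, ?_⟩
    have e1 : E.comb (r • c) P = E.act r (E.comb c P) := by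
      simp [EndRing.comb, map_sum]
    rw [e1, ← map_nsmul, h, map_zero]

theorem le_finrank {a b : ℂ} (E : EndRing a b) {q ρ : ℕ} (P : Fin q → (curve a b).Point)
    (c : Fin ρ → Fin q → E.O) (hc : LinearIndependent ℂ (fun i l => (c i l : ℂ)))
    (h : ∀ i, E.Relation (c i) P) : ρ ≤ Module.finrank E.O (relMod E P) := by
  have h1 : LinearIndependent E.O (fun i => (⟨c i, h i⟩ : relMod E P)) := by
    rw [Fintype.linearIndependent_iff] at hc ⊢
    intro g hg i
    have h2 : ∑ i, (g i : ℂ) • (fun l => (c i l : ℂ)) = 0 := by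
      funext l
      have h3 := congrArg (fun v : relMod E P => (((v : Fin q → E.O) l : E.O) : ℂ)) hg
      simpa [Finset.sum_apply] using h3
    exact_mod_cast hc _ h2 i
  have h2 := h1.cardinal_le_rank
  have h3 : Module.rank E.O (relMod E P) < Cardinal.aleph0 := by
    refine (Submodule.rank_le _).trans_lt ?_
    rw [rank_fun']
    exact Cardinal.natCast_lt_aleph0
  have h4 := Cardinal.toNat_le_toNat h2 h3
  simpa [Module.finrank] using h4

/-- a curve has finitely many points on a multisection, if its equation is not trivial -/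
theorem finite_on {N q R e : ℕ} {d : Fin q → ℕ} (F : Idx N q R e d → ℤ) (l : Fin q)
    (y : Fin (N + 1) → ℂ) (a b : ℂ) (h : ∃ h : Fin (R + 1), form F l h y ≠ 0) :
    {P : (curve a b).Point | OnMultisection F l y P}.Finite := by
  classical
  let f : Polynomial ℂ := ∑ h : Fin (R + 1),
    Polynomial.C (form F l h y) * Polynomial.X ^ (R - (h : ℕ))
  have hf : f ≠ 0 := by
    obtain ⟨h, hh⟩ := h
    intro h0
    apply hh
    have h1 : f.coeff (R - (h : ℕ)) = form F l h y := by
      change (∑ h : Fin (R + 1), Polynomial.C (form F l h y) *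
        Polynomial.X ^ (R - (h : ℕ))).coeff (R - (h : ℕ)) = _
      rw [Polynomial.finsetSum_coeff, Finset.sum_eq_single h]
      · rw [Polynomial.coeff_C_mul_X_pow, if_pos rfl]
      · intro h' _ hne
        rw [Polynomial.coeff_C_mul_X_pow, if_neg]
        intro h4
        apply hne
        apply Fin.ext
        have h5 := h.2
        have h6 := h'.2
        omega
      · intro h4
        exact absurd (Finset.mem_univ _) h4
    rw [← h1, h0, Polynomial.coeff_zero]
  have hev : ∀ x : ℂ, f.eval x = ∑ h : Fin (R + 1), form F l h y * x ^ (R - (h : ℕ)) := by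
    intro x
    change (∑ h : Fin (R + 1), Polynomial.C (form F l h y) *
        Polynomial.X ^ (R - (h : ℕ))).eval x = _
    rw [Polynomial.eval_finsetSum]
    refine Finset.sum_congr rfl fun h _ => ?_
    rw [Polynomial.eval_mul, Polynomial.eval_C, Polynomial.eval_pow, Polynomial.eval_X]
  -- coordinates
  let co : (curve a b).Point → Option (ℂ × ℂ) := fun P => match P with
    | .zero => none
    | .some x y _ => some (x, y)
  have hco : Function.Injective co := by
    rintro (_ | ⟨x, y, h⟩) (_ | ⟨x', y', h'⟩) hP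
    · rfl
    · exact absurd hP (by simp [co])
    · exact absurd hP (by simp [co])
    · have h1 : (x, y) = (x', y') := Option.some.inj hP
      obtain ⟨rfl, rfl⟩ := Prod.mk.inj h1
      rfl
  refine Set.Finite.of_finite_image (f := co) ?_ hco.injOn
  let S : Finset (Option (ℂ × ℂ)) := insert none ((f.roots.toFinset.biUnion fun x =>
    ((Polynomial.X ^ 2 - Polynomial.C (x ^ 3 + a * x + b)).roots.toFinset.image
      fun y => (x, y))).image some)
  refine S.finite_toSet.subset ?_
  rintro _ ⟨P, hP, rfl⟩
  rcases P with _ | ⟨x, z, hn⟩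
  · exact Finset.mem_coe.2 (Finset.mem_insert_self _ _)
  · rcases hP with ⟨h0, -⟩ | ⟨-, h1⟩
    · exact absurd h0 (WeierstrassCurve.Affine.Point.some_ne_zero hn)
    · refine Finset.mem_coe.2 (Finset.mem_insert_of_mem (Finset.mem_image_of_mem _ ?_))
      refine Finset.mem_biUnion.2 ⟨x, ?_, Finset.mem_image_of_mem _ ?_⟩
      · rw [Multiset.mem_toFinset, Polynomial.mem_roots hf, Polynomial.IsRoot, hev]
        exact h1
      · have h2 : z ^ 2 = x ^ 3 + a * x + b := by
          have h3 := (WeierstrassCurve.Affine.equation_iff _ _).1 hn.1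
          linear_combination h3
        have h3 : (Polynomial.X ^ 2 - Polynomial.C (x ^ 3 + a * x + b) : Polynomial ℂ) ≠ 0 :=
          Polynomial.X_pow_sub_C_ne_zero two_pos _
        rw [Multiset.mem_toFinset, Polynomial.mem_roots h3, Polynomial.IsRoot]
        simp [h2]

/-- the equation of a multisection in terms of the helper files -/
theorem onM_iff {N q R e : ℕ} {d : Fin q → ℕ} (F : Idx N q R e d → ℤ) (l : Fin q)
    (y : Fin (N + 1) → ℂ) {a b : ℂ} (P : (curve a b).Point) (h : OnMultisection F l y P) :
    Pool.Agent.TH971.RF.OnM (d := d l) (e := e) (fun (h : Fin (R + 1)) u => F ⟨l, h, u⟩) y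
      (A := a) (B := b) P := by
  rcases h with ⟨h1, h2⟩ | ⟨h1, h2⟩
  · exact Or.inl ⟨h1, h2⟩
  · refine Or.inr ⟨h1, ?_⟩
    rw [xCoord_eq] at h2
    exact h2

/-- For every projective variety `B` of dimension at most `m`, every elliptic scheme over `B`, all
`q ≤ R`, `m ≤ R` and all degrees `d_l`: in every residue class modulo any `Q₀` and in every box
`H u + [-ε H, ε H]` there is a positive proportion of integer vectors `F` for which the variety `X_F`
in the `q`-th fibre power is finite over `B`, and satisfies Pink's conjecture. -/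
theorem result {κ : Type} (N q m R e : ℕ) (hR : 0 < R) (hqR : q ≤ R) (hmR : m ≤ R)
    (d : Fin q → ℕ) (G : κ → MvPolynomial (Fin (N + 1)) ℂ)
    (hhom : ∀ k, ∃ w, (G k).IsHomogeneous w) (halg : ∀ k s, IsAlgebraic ℚ ((G k).coeff s))
    (hdim : DimLE G m) (A₄ A₆ : MvPolynomial (Fin (N + 1)) ℂ) (h₄ : A₄.IsHomogeneous (4 * e))
    (h₆ : A₆.IsHomogeneous (6 * e)) (ha₄ : ∀ s, IsAlgebraic ℚ (A₄.coeff s))
    (ha₆ : ∀ s, IsAlgebraic ℚ (A₆.coeff s)) (Q₀ : ℕ) (hQ₀ : 0 < Q₀) (F₀ : Idx N q R e d → ℤ)
    (u : Idx N q R e d → ℝ) (ε : ℝ) (hε : 0 < ε) :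
    ∃ δ : ℝ, 0 < δ ∧ ∀ᶠ H : ℕ in Filter.atTop,
      δ * (H : ℝ) ^ (Fintype.card (Idx N q R e d)) ≤
        Nat.card {F : Idx N q R e d → ℤ // (∀ i, |(F i : ℝ) - H * u i| ≤ ε * H) ∧
          (∀ i, (Q₀ : ℤ) ∣ F i - F₀ i) ∧ FiniteFibres G A₄ A₆ F ∧ NonemptyFibres G A₄ A₆ F ∧
          AvoidsSubgroups G A₄ A₆ F m ∧ NoAtypical G A₄ A₆ F m} := by
  classical
  obtain ⟨Q, F₁, hQ, hmain⟩ := Pool.Agent.Y645.PK.exists_class N q m R e hR hqR d G hhom halg
    (by
      obtain ⟨t, ht⟩ := hdim
      refine ⟨t, fun y hyG hyt => ?_⟩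
      by_contra hy
      obtain ⟨b, hb⟩ := ht y ⟨hy, hyG⟩
      exact hb (hyt b)) A₄ A₆ h₄ h₆ ha₄ ha₆ Q₀ hQ₀ F₀
  refine Pool.Agent.W282.ZP.pos_proportion' Q hQ F₁ _ (fun F hF => ?_) u ε hε
  obtain ⟨hc0, hfin, hkey⟩ := hmain F hF
  have hNA : NoAtypical G A₄ A₆ F m := by
    intro y hy P hP ρ hρ j0 T hT
    obtain ⟨E, c, hc, hcP⟩ := hρ
    have h1 := hkey y hy.1 hy.2 (toE E) P (fun l => onM_iff F l y (P l) (hP l)) (relMod E P)
      (fun a ha => ha) j0 T hT
    have h2 := le_finrank E P c hc hcP
    have h3 : T.card + Module.finrank E.O (relMod E P) ≤ m := h1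
    omega
  refine ⟨hc0, ?_, ?_, ?_, hNA⟩
  · intro y hy
    have h1 : {P : Fin q → (curve (eval y A₄) (eval y A₆)).Point | OnX F y P} =
        Set.pi Set.univ fun l => {P | OnMultisection F l y P} := by
      ext P
      simp [OnX]
    rw [h1]
    exact Set.Finite.pi fun l => finite_on F l y _ _ (hfin hmR y hy.1 hy.2 l)
  · intro y hy hsm
    have h1 : ∀ l, ∃ P : (curve (eval y A₄) (eval y A₆)).Point, OnMultisection F l y P := by
      intro l
      by_cases h0 : form F l 0 y = 0
      · exact ⟨0, Or.inl ⟨rfl, h0⟩⟩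
      · obtain ⟨X, hX⟩ := Pool.Agent.TH971.RF.exists_root hR (fun h => form F l h y) h0
        obtain ⟨P, hP0, hPX⟩ := Pool.Agent.TH971.RF.exists_point (X := X) hsm
        refine ⟨P, Or.inr ⟨hP0, ?_⟩⟩
        have h2 : xCoord (a := eval y A₄) (b := eval y A₆) P = X := by
          rw [← hPX]
          exact xCoord_eq P
        rw [h2]
        exact hX
    choose P hP using h1
    exact ⟨P, hP⟩
  · intro y hy P hP hs
    have h1 := hNA y hy P hP (m + 1) hs 0 ∅ (algebraicIndependent_empty_type)
    rw [Finset.card_empty] at h1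
    omega

end Pool.Agent.Results.MP_28d749_ag.RandomMultisections
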