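import Pool.Agent.Y645.PK.Alg
import Pool.Agent.W282.LF.Top

/-!
# MP_28d749_ag: Pink's conjecture for a positive proportion of the pull-backs of an arbitrary
subvariety to the powers of an arbitrary elliptic scheme

Let `A₄`, `A₆` be arbitrary polynomials in `y_1, …, y_r` over the complex numbers. They give the
elliptic scheme `E` with the fibres `E_y : y'² = x³ + A₄(y) x + A₆(y)` over the open subset
`4 A₄³ + 27 A₆² ≠ 0` of the affine space, and by restriction over all subvarieties `S` of this open
set. (Every elliptic scheme over an affine variety has this form after shrinking the variety.) Let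
`𝒜 = E^q` be its `q`-th fibre power, an abelian scheme of relative dimension `q`.

We consider rational maps `φ_c : 𝒜 ⇢ 𝔸^r × (P¹)^q` over the base,
`φ_c (y; P_1, …, P_q) = (y; N_1 / D_1, …, N_q / D_q)`. The numerators and denominators
`N_l = ∑_h N_{l,h}(y) x(P_l)^(R - h)` and `D_l = ∑_h D_{l,h}(y) x(P_l)^(R - h)`, `h = 0, …, R`, have
polynomials `N_{l,h}`, `D_{l,h}` of degree at most `δ_l + 2 e h` in each of the variables `y_i` as
coefficients (`value`; `N_l = N_{l,0}(y)` and `D_l = D_{l,0}(y)` at the origin `P_l = 0`). Here `e` is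
any number such that `A₄` and `A₆` have degrees at most `4 e` and `6 e` in each variable, `δ_l` is
any number, and `R ≥ q`, `R > r`. The vector `c` consists of all the coefficients of the polynomials
`N_{l,h}` and `D_{l,h}`, and they are integers.

Let `V ⊆ 𝔸^r × 𝔸^q` be any irreducible subvariety over the complex numbers, of any dimension `d`, and
let `X_c = pullback c V ⊆ 𝒜` be the closed set of all points `(y, P)` at which the
homogenizations (with respect to the last `q` coordinates) of all polynomials in the ideal of `V`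
vanish, evaluated at the `N_l` and `D_l`. It contains the closure of the pull-back `φ_c⁻¹(V)`, and
the base of the pull-back can be any subvariety `S`, for `V ⊆ S × 𝔸^q`.

Theorem: for a positive proportion of all vectors `c` (in every residue class modulo any `Q₀` and in
every box `H u + [-ε H, ε H]`)

* `X_c` lies over all of `V` (`Onto`): for every point `(y, z)` of `V` with smooth fibre `E_y` there is
  a point `(y, P)` of `X_c` with `N_l = z_l D_l` for all `l`; so `X_c` has dimension `d`, if the
  fibres over `V` are smooth in general (the dimension is at most `d` by the case `ρ = 0` below);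
* `X_c` does not meet `𝒜^[>d]`, the union of all algebraic subgroups of codimension `> d` of all the
  fibres (`AvoidsSubgroups`), as in Pink's conjecture;
* for every `ρ` every irreducible closed subset of `X_c ∩ 𝒜^[≥ρ]` has dimension at most `d - ρ`
  (`NoAtypical`). In particular (`ρ = 1`) no component of dimension `d` of `X_c` is in a strict group
  subscheme.

So Pink's conjecture holds for all components of dimension `d` of `X_c`, in the strong form that
the intersection with `𝒜^[>d]` is empty. The algebraic subgroups of the fibres `E_y^q` are given up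
to torsion by relations `∑ c_l (P_l) = 0` with endomorphisms `c_l` of `E_y` as coefficients, also for
the fibres with complex multiplication (`InSubgroup`).
-/

namespace Pool.Agent.Results.MP_28d749_ag.RandomPullbacks

open MvPolynomial Pool.Agent.W282.ZP

/-- The curve `y² = x³ + a x + b` over the complex numbers. -/
abbrev curve (a b : ℂ) : WeierstrassCurve.Affine ℂ := ⟨0, 0, 0, a, b⟩

/-- The `x`-coordinate of a point of the curve (`0` for the origin). -/
def xCoord {a b : ℂ} : (curve a b).Point → ℂ
  | .zero => 0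
  | .some x _ _ => x

/-- The map `φ` of the points of the curve `y² = x³ + a x + b` to itself is given on the
`x`-coordinates by a rational function `u / w` with `u(x) / w(x) ~ x / c²` for `x → ∞`. -/
def ActsByRational {a b : ℂ} (c : ℂ) (φ : (curve a b).Point → (curve a b).Point) : Prop :=
  ∃ u w : Polynomial ℂ, w ≠ 0 ∧ u.natDegree = w.natDegree + 1 ∧
    w.leadingCoeff = c ^ 2 * u.leadingCoeff ∧
    ∀ P : (curve a b).Point, P ≠ 0 → w.eval (xCoord P) ≠ 0 →
      φ P ≠ 0 ∧ xCoord (φ P) * w.eval (xCoord P) = u.eval (xCoord P)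

/-- A ring of endomorphisms of the curve `y² = x³ + a x + b`: a ring `O` of complex numbers which
acts on the group of points. For an endomorphism which is multiplication by `λ` on the tangent space
at the origin the number `λ` is an integer or an imaginary quadratic integer, in particular it
satisfies an equation `λ² - T λ + N = 0` with integers `T, N`, and if it is not an integer, the
`x`-coordinate of the image of a point is a rational function `u / w` of the `x`-coordinate of the
point, with `u(x) / w(x) ~ x / λ²` for `x → ∞`. (The integers in `O` act by multiplication, as `act`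
is a homomorphism of rings.) -/
structure EndRing (a b : ℂ) where
  /-- the ring -/
  O : Subring ℂ
  /-- its action on the points -/
  act : O →+* AddMonoid.End (curve a b).Point
  quad : ∀ c : O, ∃ T N : ℤ, (c : ℂ) ^ 2 - T * c + N = 0
  rat : ∀ c : O, (∀ n : ℤ, (c : ℂ) ≠ n) → ActsByRational c (act c)

/-- The linear combination `∑ c_l (P_l)` of points with endomorphisms `c_l` as coefficients. -/
noncomputable def EndRing.comb {a b : ℂ} (E : EndRing a b) {q : ℕ} (c : Fin q → E.O)
    (P : Fin q → (curve a b).Point) : (curve a b).Point :=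
  ∑ l, E.act (c l) (P l)

/-- The coefficients `c_1, …, c_q` are a relation between the points `P_1, …, P_q` up to torsion:
the point `∑ c_l (P_l)` is a torsion point. -/
def EndRing.Relation {a b : ℂ} (E : EndRing a b) {q : ℕ} (c : Fin q → E.O)
    (P : Fin q → (curve a b).Point) : Prop :=
  ∃ t : ℕ, 0 < t ∧ t • E.comb c P = 0

/-- The point `(P_1, …, P_q)` of the `q`-th power of the curve is in an algebraic subgroup of
codimension at least `ρ`: the module of the relations between the `P_l` over some ring of
endomorphisms of the curve has rank at least `ρ`, it has `ρ` linearly independent elements. -/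
def InSubgroup {a b : ℂ} {q : ℕ} (P : Fin q → (curve a b).Point) (ρ : ℕ) : Prop :=
  ∃ (E : EndRing a b) (c : Fin ρ → Fin q → E.O),
    LinearIndependent ℂ (fun i l => (c i l : ℂ)) ∧ ∀ i, E.Relation (c i) P

/-- The index set of the coefficients of the polynomials `N_{l,h}` (`0`) and `D_{l,h}` (`1`): their
monomials have degree at most `δ_l + 2 e h` in each of the variables `y_1, …, y_r`. -/
abbrev Idx (r q R e : ℕ) (δ : Fin q → ℕ) : Type :=
  (l : Fin q) × Fin 2 × (h : Fin (R + 1)) × (Fin r → Fin (δ l + 2 * e * (h : ℕ) + 1))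

variable {r q R e : ℕ} {δ : Fin q → ℕ}

/-- The value at `y` of the polynomial `N_{l,h}` (for `s = 0`) or `D_{l,h}` (for `s = 1`). -/
noncomputable def coeffValue (c : Idx r q R e δ → ℤ) (s : Fin 2) (l : Fin q) (h : Fin (R + 1))
    (y : Fin r → ℂ) : ℂ :=
  ∑ k : Fin r → Fin (δ l + 2 * e * (h : ℕ) + 1), (c ⟨l, s, h, k⟩ : ℂ) * ∏ i, y i ^ (k i : ℕ)

open Classical in
/-- The value of the numerator `N_l` (`s = 0`) or denominator `D_l` (`s = 1`) at the point `P` of the
fibre at `y`. -/
noncomputable def value (c : Idx r q R e δ → ℤ) (s : Fin 2) (l : Fin q) (y : Fin r → ℂ) {a b : ℂ}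
    (P : (curve a b).Point) : ℂ :=
  if P = 0 then coeffValue c s l 0 y
  else ∑ h : Fin (R + 1), coeffValue c s l h y * xCoord P ^ (R - (h : ℕ))

/-- The point `(y; P_1, …, P_q)` of the fibre power is a point of `X_c`: for all polynomials `f` in
the ideal of `V` the homogenization of `f` with respect to the last `q` variables vanishes at `y` and
the values of the numerators and denominators. -/
def OnPullback (c : Idx r q R e δ → ℤ) (V : Set (Fin r ⊕ Fin q → ℂ)) (y : Fin r → ℂ) {a b : ℂ}
    (P : Fin q → (curve a b).Point) : Prop :=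
  ∀ f ∈ idealOf V, ∑ k ∈ f.support, f.coeff k * ((∏ i, y i ^ k (Sum.inl i)) *
    ∏ l, (value c 0 l y (P l) ^ k (Sum.inr l) *
      value c 1 l y (P l) ^ (f.degreeOf (Sum.inr l) - k (Sum.inr l)))) = 0

section properties

variable (A₄ A₆ : MvPolynomial (Fin r) ℂ) (c : Idx r q R e δ → ℤ) (V : Set (Fin r ⊕ Fin q → ℂ))

/-- Over every point `(y, z)` of `V` with smooth fibre `E_y` there is a point of `X_c`. -/
def Onto : Prop :=
  ∀ v ∈ V, ∀ y : Fin r → ℂ, (∀ i, y i = v (Sum.inl i)) →
    4 * eval y A₄ ^ 3 + 27 * eval y A₆ ^ 2 ≠ 0 →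
    ∃ P : Fin q → (curve (eval y A₄) (eval y A₆)).Point, OnPullback c V y P ∧
      ∀ l, value c 0 l y (P l) = v (Sum.inr l) * value c 1 l y (P l)

/-- The set `X_c` does not meet the algebraic subgroups of codimension `> d` of the fibres, where
`d = dim V`. -/
def AvoidsSubgroups : Prop :=
  ∀ (y : Fin r → ℂ) (P : Fin q → (curve (eval y A₄) (eval y A₆)).Point), OnPullback c V y P →
    ∀ ρ : ℕ, zdim V < (ρ : Cardinal) → ¬ InSubgroup P ρ

/-- For all `ρ` every irreducible closed subset of `X_c ∩ 𝒜^[≥ρ]` has dimension at most `d - ρ`,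
where `d = dim V`. More precisely, let `W` be an irreducible closed set of vectors, such that all
vectors in `W` outside of some hypersurface `p = 0`, which does not contain `W`, are the vectors
of coordinates `y_i`, `x(P_l)` (numbered in any way) of points `(y, P)` of `X_c` which are in
algebraic subgroups of codimension at least `ρ` of the fibres. Then `dim W + ρ ≤ d`. -/
def NoAtypical : Prop :=
  ∀ (ρ s : ℕ) (ι : Fin s ≃ Fin r ⊕ Fin q) (W : Set (Fin s → ℂ)) (p : MvPolynomial (Fin s) ℂ),
    (∀ w ∈ W, eval w p ≠ 0 → ∃ (y : Fin r → ℂ)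
      (P : Fin q → (curve (eval y A₄) (eval y A₆)).Point), OnPullback c V y P ∧ InSubgroup P ρ ∧
        ∀ i, w i = Sum.elim y (fun l => xCoord (P l)) (ι i)) →
    zcl W ⊆ W → (idealOf W).IsPrime → p ∉ idealOf W → zdim W + (ρ : Cardinal) ≤ zdim V

end properties

theorem xCoord_eq {a b : ℂ} (P : (curve a b).Point) :
    xCoord P = Pool.Agent.W466.EP.xx (A := a) (B := b) P := by
  rcases P with _ | ⟨x, y, h⟩
  · rfl
  · rfl

/-- the ring of endomorphisms as in the helper files -/
def toE {a b : ℂ} (E : EndRing a b) : Pool.Agent.TH971.RF.EndRing a b where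
  O := E.O
  act := E.act
  quad := E.quad
  rat := by
    intro c hc
    obtain ⟨u, w, h1, h2, h3, h4⟩ := E.rat c hc
    refine ⟨u, w, h1, h2, h3, fun P hP hw => ?_⟩
    have e1 : xCoord (a := a) (b := b) P = Pool.Agent.W466.EP.xx (A := a) (B := b) P := xCoord_eq P
    have hw' : w.eval (xCoord (a := a) (b := b) P) ≠ 0 := by rw [e1]; exact hw
    have h5 := h4 P hP hw'
    have e2 : xCoord (a := a) (b := b) (E.act c P) =
      Pool.Agent.W466.EP.xx (A := a) (B := b) (E.act c P) := xCoord_eq _
    rw [e1, e2] at h5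
    exact h5

/-- the module of the relations -/
def relMod {a b : ℂ} (E : EndRing a b) {q : ℕ} (P : Fin q → (curve a b).Point) :
    Submodule E.O (Fin q → E.O) where
  carrier := {c | E.Relation c P}
  zero_mem' := ⟨1, one_pos, by simp [EndRing.comb]⟩
  add_mem' := by
    rintro c c' ⟨t, ht, h⟩ ⟨t', ht', h'⟩
    refine ⟨t * t', Nat.mul_pos ht ht', ?_⟩
    have e1 : E.comb (c + c') P = E.comb c P + E.comb c' P := by
      unfold EndRing.comb
      rw [← Finset.sum_add_distrib]
      refine Finset.sum_congr rfl fun l _ => ?_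
      rw [Pi.add_apply, map_add]
      rfl
    rw [e1, nsmul_add, mul_nsmul, h, mul_comm t t', mul_nsmul, h', nsmul_zero, nsmul_zero, add_zero]
  smul_mem' := by
    rintro r c ⟨t, ht, h⟩
    refine ⟨t, ht, ?_⟩
    have e1 : E.comb (r • c) P = E.act r (E.comb c P) := by
      simp [EndRing.comb, map_sum]
    rw [e1, ← map_nsmul, h, map_zero]

theorem le_finrank {a b : ℂ} (E : EndRing a b) {q ρ : ℕ} (P : Fin q → (curve a b).Point)
    (c : Fin ρ → Fin q → E.O) (hc : LinearIndependent ℂ (fun i l => (c i l : ℂ)))
    (h : ∀ i, E.Relation (c i) P) : ρ ≤ Module.finrank E.O (relMod E P) := by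
  have h1 : LinearIndependent E.O (fun i => (⟨c i, h i⟩ : relMod E P)) := by
    rw [Fintype.linearIndependent_iff] at hc ⊢
    intro g hg i
    have h2 : ∑ i, (g i : ℂ) • (fun l => (c i l : ℂ)) = 0 := by
      funext l
      have h3 := congrArg (fun v : relMod E P => (((v : Fin q → E.O) l : E.O) : ℂ)) hg
      simpa [Finset.sum_apply] using h3
    exact_mod_cast hc _ h2 i
  have h2 := h1.cardinal_le_rank
  have h3 : Module.rank E.O (relMod E P) < Cardinal.aleph0 := by
    refine (Submodule.rank_le _).trans_lt ?_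
    rw [rank_fun']
    exact Cardinal.natCast_lt_aleph0
  have h4 := Cardinal.toNat_le_toNat h2 h3
  simpa [Module.finrank] using h4

theorem value_eq (c : Idx r q R e δ → ℤ) (s : Fin 2) (l : Fin q) (y : Fin r → ℂ) {a b : ℂ}
    (P : (curve a b).Point) :
    value c s l y P = Pool.Agent.Y645.PK.nd c s l y (A := a) (B := b) P := by
  classical
  unfold value Pool.Agent.Y645.PK.nd Pool.Agent.Y645.PK.val
  rw [xCoord_eq]
  by_cases h : P = 0
  · exact (if_pos h).trans (if_pos h).symm
  · exact (if_neg h).trans (if_neg h).symm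

theorem hom_id (f : MvPolynomial (Fin r ⊕ Fin q) ℂ) (v : Fin r ⊕ Fin q → ℂ) (y : Fin r → ℂ)
    (hy : ∀ i, y i = v (Sum.inl i)) (N D : Fin q → ℂ) (hND : ∀ l, N l = v (Sum.inr l) * D l) :
    ∑ k ∈ f.support, f.coeff k * ((∏ i, y i ^ k (Sum.inl i)) *
      ∏ l, (N l ^ k (Sum.inr l) * D l ^ (f.degreeOf (Sum.inr l) - k (Sum.inr l)))) =
    (∏ l, D l ^ f.degreeOf (Sum.inr l)) * eval v f := by
  rw [eval_eq', Finset.mul_sum]
  refine Finset.sum_congr rfl fun k hk => ?_
  rw [Fintype.prod_sum_type]
  have h3 : ∏ l, (N l ^ k (Sum.inr l) * D l ^ (f.degreeOf (Sum.inr l) - k (Sum.inr l))) =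
      (∏ l, D l ^ f.degreeOf (Sum.inr l)) * ∏ l, v (Sum.inr l) ^ k (Sum.inr l) := by
    rw [← Finset.prod_mul_distrib]
    refine Finset.prod_congr rfl fun l _ => ?_
    have hki : k (Sum.inr l) ≤ f.degreeOf (Sum.inr l) := monomial_le_degreeOf _ hk
    obtain ⟨t, ht⟩ := Nat.exists_eq_add_of_le hki
    rw [hND l, ht, Nat.add_sub_cancel_left, mul_pow, pow_add]
    ring
  rw [h3, Finset.prod_congr rfl fun i _ => by rw [hy i]]
  ring

/-- For every elliptic scheme, all `q ≤ R`, `r < R`, every irreducible `V` of any dimension: in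
every residue class modulo any `Q₀` and in every box `H u + [-ε H, ε H]` there is a positive
proportion of integer vectors `c` for which the pull-back `X_c` of `V` to the `q`-th fibre power lies
over all of `V` and satisfies Pink's conjecture. -/
theorem result (r q R e : ℕ) (hqR : q ≤ R) (hrR : r < R) (δ : Fin q → ℕ)
    (A₄ A₆ : MvPolynomial (Fin r) ℂ) (h₄ : ∀ i, A₄.degreeOf i ≤ 4 * e)
    (h₆ : ∀ i, A₆.degreeOf i ≤ 6 * e) (V : Set (Fin r ⊕ Fin q → ℂ)) (hV : (idealOf V).IsPrime)
    (Q₀ : ℕ) (hQ₀ : 0 < Q₀) (c₀ : Idx r q R e δ → ℤ) (u : Idx r q R e δ → ℝ) (ε : ℝ)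
    (hε : 0 < ε) :
    ∃ ν : ℝ, 0 < ν ∧ ∀ᶠ H : ℕ in Filter.atTop,
      ν * (H : ℝ) ^ (Fintype.card (Idx r q R e δ)) ≤
        Nat.card {c : Idx r q R e δ → ℤ // (∀ i, |(c i : ℝ) - H * u i| ≤ ε * H) ∧
          (∀ i, (Q₀ : ℤ) ∣ c i - c₀ i) ∧ Onto A₄ A₆ c V ∧ AvoidsSubgroups A₄ A₆ c V ∧
          NoAtypical A₄ A₆ c V} := by
  classical
  have hfin : Algebra.trdeg ℂ (MvPolynomial (Fin r ⊕ Fin q) ℂ ⧸ idealOf V) < Cardinal.aleph0 :=
    trdeg_lt_aleph0_of_finiteType
  obtain ⟨d, hd⟩ := Cardinal.lt_aleph0.1 hfin
  obtain ⟨K, Q, G, hK, hQ, hmain⟩ := Pool.Agent.Y645.PK.exists_classP (e := e) hqR hrR δ A₄ A₆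
    h₄ h₆ (idealOf V) hd Q₀ hQ₀ c₀
  refine pos_proportion' Q hQ G _ (fun c hc => ?_) u ε hε
  obtain ⟨hc0, hnd, hkey⟩ := hmain c hc
  have hhom : ∀ (y : Fin r → ℂ) (P : Fin q → (curve (eval y A₄) (eval y A₆)).Point),
      OnPullback c V y P → ∀ f ∈ idealOf V, Pool.Agent.Y645.PK.homP c f y
        (A := eval y A₄) (B := eval y A₆) P = 0 := by
    intro y P hP f hf
    rw [← hP f hf]
    unfold Pool.Agent.Y645.PK.homP
    refine Finset.sum_congr rfl fun k _ => ?_
    congr 2
    refine Finset.prod_congr rfl fun l _ => ?_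
    rw [value_eq, value_eq]
  have hbound : ∀ (y : Fin r → ℂ) (P : Fin q → (curve (eval y A₄) (eval y A₆)).Point),
      OnPullback c V y P → ∀ ρ : ℕ, InSubgroup P ρ → ∀ T : Finset (Fin r ⊕ Fin q),
        AlgebraicIndependent K (fun j : T => Pool.Agent.Y645.PK.coP y
          (A := eval y A₄) (B := eval y A₆) P j) → T.card + ρ ≤ d := by
    intro y P hP ρ hρ T hT
    obtain ⟨E, a, ha, haP⟩ := hρ
    obtain ⟨T', hT1, hT2, hT3⟩ := Pool.Agent.Y645.PK.transfer K c y (hnd y) P T hT
    have h1 := hkey y P (hhom y P hP) (toE E) (relMod E P) (fun a ha => ha) T' hT1 hT2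
    have h2 := le_finrank E P a ha haP
    have h3 : T'.card + Module.finrank E.O (relMod E P) ≤ d := h1
    omega
  refine ⟨hc0, ?_, ?_, ?_⟩
  · intro v hv y hy hs
    have h1 : ∀ l, ∃ P : (curve (eval y A₄) (eval y A₆)).Point,
        value c 0 l y P = v (Sum.inr l) * value c 1 l y P := by
      intro l
      obtain ⟨P, hP⟩ := Pool.Agent.Y645.PK.exists_above (by omega) c y hs l (v (Sum.inr l), 1)
      rw [one_mul] at hP
      exact ⟨P, (value_eq c 0 l y P).trans (hP.trans
        (congrArg (fun z => v (Sum.inr l) * z) (value_eq c 1 l y P).symm))⟩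
    choose P hP using h1
    refine ⟨P, fun f hf => ?_, hP⟩
    have h2 := hom_id f v y hy (fun l => value c 0 l y (P l)) (fun l => value c 1 l y (P l)) hP
    rw [h2]
    have h4 : eval v f = 0 := mem_idealOf.1 hf v hv
    rw [h4, mul_zero]
  · intro y P hP ρ hρ hs
    have h1 := hbound y P hP ρ hs ∅ (algebraicIndependent_empty_type)
    rw [Finset.card_empty, zero_add] at h1
    have h2 : (ρ : Cardinal) ≤ zdim V := by
      rw [zdim, hd]
      exact_mod_cast h1
    exact absurd hρ (not_lt.2 h2)
  · intro ρ s ι W p hW hcl hprime hp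
    obtain ⟨w, hwW, hpw, T, hT, hdimW⟩ :=
      Pool.Agent.W282.LF.generic_dim_open K W hprime hcl p hp
    obtain ⟨y, P, hP, hsub, hwz⟩ := hW w hwW hpw
    have hco : Pool.Agent.Y645.PK.coP y (A := eval y A₄) (B := eval y A₆) P =
        Sum.elim y (fun l => xCoord (P l)) := by
      funext j
      rcases j with j | j
      · rfl
      · exact (xCoord_eq _).symm
    have h3 := hbound y P hP ρ hsub (T.map ι.toEmbedding) (by
      rw [hco]
      have hT' : AlgebraicIndependent K
          (fun j : T => Sum.elim y (fun l => xCoord (P l)) (ι j)) := by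
        convert hT using 1
        funext j
        exact (hwz j).symm
      let e' : (T.map ι.toEmbedding : Finset (Fin r ⊕ Fin q)) ≃ T :=
        { toFun := fun j => ⟨ι.symm j, by
            obtain ⟨t, ht, h⟩ := Finset.mem_map.1 j.2
            rw [← h]
            simpa using ht⟩
          invFun := fun j => ⟨ι j, Finset.mem_map_of_mem _ j.2⟩
          left_inv := fun j => by simp
          right_inv := fun j => by simp }
      have h5 := hT'.comp e' e'.injective
      convert h5 using 1
      funext j
      simp [e'])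
    rw [Finset.card_map] at h3
    calc zdim W + (ρ : Cardinal) ≤ (T.card : Cardinal) + (ρ : Cardinal) := by gcongr
      _ = ((T.card + ρ : ℕ) : Cardinal) := by push_cast; rfl
      _ ≤ (d : Cardinal) := by exact_mod_cast h3
      _ = zdim V := by rw [zdim, hd]

end Pool.Agent.Results.MP_28d749_ag.RandomPullbacks
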